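import Pool.Agent.KS6_19.KQ.Basic
import Pool.Graph.R_seed8.Helper386.D5V.Helper386_FF_Place

/-!
The residue map (tame symbol) of the rational Milnor K-groups at a discrete valuation.
-/

set_option autoImplicit false

namespace Pool.Agent.KS6_19

open Pool.Agent.TH826.MK Function FF

variable {k K : Type*} [Field k] [Field K] [Algebra k K] (P : Place k K)

/-- A uniformiser. -/
noncomputable def unif : K := P.surj.choose

theorem unif_ne_zero : unif P ≠ 0 := P.surj.choose_spec.1

theorem ord_unif : P.ord (unif P) = 1 := P.surj.choose_spec.2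

theorem ord_div_unif {f : K} (hf : f ≠ 0) : P.ord (f / unif P ^ P.ord f) = 0 := by
  rw [P.ord_div hf (zpow_ne_zero _ (unif_ne_zero P)), P.ord_zpow, ord_unif, mul_one, sub_self]

theorem div_unif_ne_zero {f : K} (hf : f ≠ 0) : f / unif P ^ P.ord f ≠ 0 :=
  div_ne_zero hf (zpow_ne_zero _ (unif_ne_zero P))

/-- The class of `f / t ^ ord f` in the residue field. -/
noncomputable def bar : Kˣ →* P.RFˣ where
  toFun f := Units.mk0 (P.red (f / unif P ^ P.ord f))
    (P.red_ne_zero (div_unif_ne_zero P f.ne_zero) (ord_div_unif P f.ne_zero))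
  map_one' := by
    ext
    simp [P.ord_one, P.red_one]
  map_mul' f g := by
    ext
    simp only [Units.val_mul, Units.val_mk0]
    rw [← P.red_mul (Or.inr (ord_div_unif P f.ne_zero).ge) (Or.inr (ord_div_unif P g.ne_zero).ge),
      P.ord_mul f.ne_zero g.ne_zero, zpow_add₀ (unif_ne_zero P)]
    congr 1
    field_simp

theorem bar_val (f : Kˣ) : (bar P f : P.RF) = P.red (f / unif P ^ P.ord f) := rfl

theorem bar_of_ord_eq_zero (f : Kˣ) (h : P.ord (f : K) = 0) : (bar P f : P.RF) = P.red f := by
  rw [bar_val, h, zpow_zero, div_one]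

theorem bar_eq_one (f : Kˣ) (h : (f : K) = 1 ∨ 0 < P.ord ((f : K) - 1)) : bar P f = 1 := by
  rcases h with h | h
  · have : f = 1 := Units.ext h
    rw [this, map_one]
  · by_cases h1 : (f : K) - 1 = 0
    · rw [h1, P.ord_zero] at h; exact absurd h (lt_irrefl _)
    have e : (f : K) = ((f : K) - 1) + 1 := by ring
    have h2 := P.ord_add_eq (f := 1) (g := (f : K) - 1) one_ne_zero h1 (by rw [P.ord_one]; exact h)
    have h3 : P.ord (f : K) = 0 := by
      rw [e, add_comm, h2.2, P.ord_one]
    ext
    rw [bar_of_ord_eq_zero P f h3, e, P.red_add (Or.inr h.le) P.reg_one, P.red_one,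
      (P.red_eq_zero_iff (Or.inr h.le)).2 (Or.inr h), zero_add]
    rfl

/-- The order as a linear map. -/
noncomputable def ordHom : Additive Kˣ →ₗ[ℤ] ℤ :=
  AddMonoidHom.toIntLinearMap (AddMonoidHom.mk' (fun f => P.ord (f.toMul : K)) (by
    intro f g
    simp only [toMul_add, Units.val_mul]
    exact P.ord_mul f.toMul.ne_zero g.toMul.ne_zero))

theorem ordHom_apply (f : Additive Kˣ) : ordHom P f = P.ord (f.toMul : K) := rfl

/-- `bar` as a linear map. -/
noncomputable def barHom : Additive Kˣ →ₗ[ℤ] Additive P.RFˣ :=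
  AddMonoidHom.toIntLinearMap (MonoidHom.toAdditive (bar P))

theorem barHom_apply (f : Additive Kˣ) : (barHom P f).toMul = bar P f.toMul := rfl

/-- The residue map as an alternating map. -/
noncomputable def resAlt (r : ℕ) : (Additive Kˣ) [⋀^Fin (r + 1)]→ₗ[ℤ] (KQ P.RF r) :=
  AlternatingMap.alternatizeUncurryFin
    ((LinearMap.toSpanSingleton ℤ _ ((symbAlt P.RF r).compLinearMap (barHom P))) ∘ₗ ordHom P)

theorem resAlt_apply {r : ℕ} (a : Fin (r + 1) → Additive Kˣ) :
    resAlt P r a = ∑ i : Fin (r + 1), (-1 : ℤ) ^ (i : ℕ) • (P.ord ((a i).toMul : K) •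
      symb fun j => bar P (a (i.succAbove j)).toMul) := by
  unfold resAlt
  rw [AlternatingMap.alternatizeUncurryFin_apply]
  rfl

theorem resAlt_steinberg {r : ℕ} (a : Fin (r + 1) → Kˣ)
    (h : ∃ i j, i < j ∧ (a i : K) + (a j : K) = 1) :
    resAlt P r (fun i => Additive.ofMul (a i)) = 0 := by
  obtain ⟨i, j, hij, h⟩ := h
  rw [resAlt_apply]
  simp only [toMul_ofMul]
  -- a one-unit among the entries
  have one : ∀ l : Fin (r + 1), bar P (a l) = 1 → P.ord (a l : K) = 0 →
      ∑ i : Fin (r + 1), (-1 : ℤ) ^ (i : ℕ) • (P.ord ((a i : K)) •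
        symb fun j => bar P (a (i.succAbove j))) = 0 := by
    intro l h1 h2
    refine Finset.sum_eq_zero fun s _ => ?_
    by_cases hs : s = l
    · rw [hs, h2, zero_smul, smul_zero]
    · obtain ⟨l', hl'⟩ := Fin.exists_succAbove_eq (Ne.symm hs)
      rw [symb_eq_zero_of_one _ l' (by rw [hl', h1]), smul_zero, smul_zero]
  have hi0 := (a i).ne_zero
  have hj0 := (a j).ne_zero
  rcases lt_trichotomy 0 (P.ord (a i : K)) with h1 | h1 | h1
  · -- `a j` is a one-unit
    have e : (a j : K) - 1 = - (a i : K) := by rw [← h]; ring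
    have e1 : 0 < P.ord ((a j : K) - 1) := by rw [e, P.ord_neg]; exact h1
    have e2 : P.ord (a j : K) = 0 := by
      have := P.ord_add_eq (f := 1) (g := -(a i : K)) one_ne_zero (neg_ne_zero.2 hi0)
        (by rw [P.ord_one, P.ord_neg]; exact h1)
      have e3 : (a j : K) = 1 + -(a i : K) := by rw [← h]; ring
      rw [e3, this.2, P.ord_one]
    exact one j (bar_eq_one P _ (Or.inr e1)) e2
  · rcases lt_trichotomy 0 (P.ord (a j : K)) with h2 | h2 | h2
    · have e : (a i : K) - 1 = - (a j : K) := by rw [← h]; ring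
      have e1 : 0 < P.ord ((a i : K) - 1) := by rw [e, P.ord_neg]; exact h2
      exact one i (bar_eq_one P _ (Or.inr e1)) h1.symm
    · refine Finset.sum_eq_zero fun s _ => ?_
      by_cases hs : s = i
      · rw [hs, ← h1, zero_smul, smul_zero]
      by_cases hs' : s = j
      · rw [hs', ← h2, zero_smul, smul_zero]
      obtain ⟨i', hi'⟩ := Fin.exists_succAbove_eq (Ne.symm hs)
      obtain ⟨j', hj'⟩ := Fin.exists_succAbove_eq (Ne.symm hs')
      have hne : i' ≠ j' := by
        rintro rfl
        rw [hi'] at hj'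
        exact hij.ne hj'
      rw [symb_eq_zero' _ hne (by
        rw [hi', hj', bar_of_ord_eq_zero P _ h1.symm, bar_of_ord_eq_zero P _ h2.symm,
          ← P.red_add (Or.inr h1.le) (Or.inr h2.le), h, P.red_one]), smul_zero, smul_zero]
    · exfalso
      have := P.ord_add_eq (f := (a j : K)) (g := (a i : K)) hj0 hi0 (by omega)
      rw [add_comm] at h
      rw [h, P.ord_one] at this
      omega
  · -- negative order
    have h2 : P.ord (a j : K) = P.ord (a i : K) := by
      have e3 : (a j : K) = -(a i : K) + 1 := by rw [← h]; ring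
      have := P.ord_add_eq (f := -(a i : K)) (g := 1) (neg_ne_zero.2 hi0) one_ne_zero
        (by rw [P.ord_one, P.ord_neg]; exact h1)
      rw [e3, this.2, P.ord_neg]
    have hb : bar P (a j) = - bar P (a i) := by
      ext
      rw [Units.val_neg, bar_val, bar_val, h2]
      set m := P.ord (a i : K) with hm
      have e3 : (a j : K) / unif P ^ m = -((a i : K) / unif P ^ m) + (unif P ^ (-m)) := by
        have : (a j : K) = -(a i : K) + 1 := by rw [← h]; ring
        rw [this, zpow_neg]
        field_simp
      have ht : 0 < P.ord (unif P ^ (-m)) := by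
        rw [P.ord_zpow, ord_unif]; omega
      have hr : P.Reg ((a i : K) / unif P ^ m) := Or.inr (ord_div_unif P hi0).ge
      rw [e3, P.red_add (P.reg_neg hr) (Or.inr ht.le), P.red_neg hr,
        (P.red_eq_zero_iff (Or.inr ht.le)).2 (Or.inr ht), add_zero]
    have hs : ∑ i : Fin (r + 1), (-1 : ℤ) ^ (i : ℕ) • (P.ord ((a i : K)) •
        symb fun j => bar P (a (i.succAbove j))) =
        (-1 : ℤ) ^ (i : ℕ) • (P.ord ((a i : K)) • symb fun l => bar P (a (i.succAbove l))) +
        (-1 : ℤ) ^ (j : ℕ) • (P.ord ((a j : K)) • symb fun l => bar P (a (j.succAbove l))) := by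
      refine Fintype.sum_eq_add _ _ hij.ne fun s ⟨hs, hs'⟩ => ?_
      obtain ⟨i', hi'⟩ := Fin.exists_succAbove_eq (Ne.symm hs)
      obtain ⟨j', hj'⟩ := Fin.exists_succAbove_eq (Ne.symm hs')
      have hne : i' ≠ j' := by
        rintro rfl
        rw [hi'] at hj'
        exact hij.ne hj'
      rw [symb_neg_self _ hne (by rw [hi', hj', hb]), smul_zero, smul_zero]
    rw [hs, h2]
    -- compare with the tuple in which `bar (a j)` is replaced by `bar (a i)`
    let v : Fin (r + 1) → Additive P.RFˣ := fun l => Additive.ofMul (bar P (a l))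
    let v' : Fin (r + 1) → Additive P.RFˣ := update v j (v i)
    have key := AlternatingMap.neg_one_pow_smul_map_removeNth_add_eq_zero_of_eq
      (symbAlt P.RF r) (v := v') (i := i) (j := j) (by
        simp only [v', update_self, update_of_ne hij.ne]) hij.ne
    have e1 : symbAlt P.RF r (i.removeNth v') = symb fun l => bar P (a (i.succAbove l)) := by
      obtain ⟨j', hj'⟩ := Fin.exists_succAbove_eq (hij.ne')
      have e2 : i.removeNth v' = fun l => Additive.ofMul
          (update (fun l => bar P (a (i.succAbove l))) j' (bar P (a i)) l) := by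
        funext l
        by_cases hl : l = j'
        · subst hl
          rw [update_self]
          show v' (i.succAbove l) = _
          rw [hj']
          simp only [v', update_self, v]
        · rw [update_of_ne hl]
          show v' (i.succAbove l) = _
          have : i.succAbove l ≠ j := by
            rw [← hj']; exact fun e => hl (Fin.succAbove_right_injective e)
          simp only [v', update_of_ne this, v]
      rw [e2, ← symb_eq_symbAlt, ← symb_update_neg, ← hb, ← hj']
      congr 1
      rw [update_eq_iff]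
      exact ⟨rfl, fun _ _ => rfl⟩
    have e3 : symbAlt P.RF r (j.removeNth v') = symb fun l => bar P (a (j.succAbove l)) := by
      rw [symb_eq_symbAlt]
      congr 1
      funext l
      show v' (j.succAbove l) = _
      simp only [v', update_of_ne (Fin.succAbove_ne j l), v]
    rw [e1, e3] at key
    rw [smul_comm, smul_comm ((-1 : ℤ) ^ (j : ℕ)), ← smul_add, key, smul_zero]

/-- The residue map (tame symbol) `K_{r+1}^M(K) ⊗ ℚ → K_r^M(κ(P)) ⊗ ℚ`. -/
noncomputable def res (r : ℕ) : KQ K (r + 1) →ₗ[ℚ] KQ P.RF r :=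
  KQ.lift (fun a => resAlt P r fun i => Additive.ofMul (a i)) (by
    intro a i x y
    have e : ∀ z : Kˣ, (fun j => Additive.ofMul (update a i z j)) =
        update (fun j => Additive.ofMul (a j)) i (Additive.ofMul z) := by
      intro z
      funext j
      by_cases hj : j = i
      · subst hj; simp
      · simp [update_of_ne hj]
    rw [e, e, e, ofMul_mul, AlternatingMap.map_update_add]) (resAlt_steinberg P)

theorem res_symb {r : ℕ} (a : Fin (r + 1) → Kˣ) :
    res P r (symb a) = ∑ i : Fin (r + 1), (-1 : ℤ) ^ (i : ℕ) • (P.ord (a i : K) •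
      symb fun j => bar P (a (i.succAbove j))) := by
  unfold res
  rw [KQ.lift_symb, resAlt_apply]
  rfl

theorem res_symb_of_units {r : ℕ} (a : Fin (r + 1) → Kˣ) (h : ∀ i, P.ord (a i : K) = 0) :
    res P r (symb a) = 0 := by
  rw [res_symb]
  refine Finset.sum_eq_zero fun i _ => ?_
  rw [h i, zero_smul, smul_zero]

theorem res_symb_cons {r : ℕ} (f : Kˣ) (a : Fin r → Kˣ) (h : ∀ i, P.ord (a i : K) = 0) :
    res P r (symb (Fin.cons f a : Fin (r + 1) → Kˣ)) =
      P.ord (f : K) • symb fun i => bar P (a i) := by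
  rw [res_symb, Fin.sum_univ_succ, Finset.sum_eq_zero, add_zero]
  · simp
  · intro i _
    rw [Fin.cons_succ, h i, zero_smul, smul_zero]

end Pool.Agent.KS6_19
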