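import Pool.Graph.R_seed8.TH826.MK.Milnor

/-!
Elementary identities in the rational Milnor K-groups of a field: bilinearity, antisymmetry, the
symbols as an alternating map.
-/

set_option autoImplicit false

namespace Pool.Agent.KS6_19

open Pool.Agent.TH826.MK Function

section Ring

variable {A : Type*} [CommRing A] {n : ℕ}

theorem symb_update_one (a : Fin n → Aˣ) (i : Fin n) : symb (update a i 1) = 0 := by
  have h := symb_update_mul a i 1 1
  rw [one_mul] at h
  simpa using h

theorem symb_eq_zero_of_one (a : Fin n → Aˣ) (i : Fin n) (h : a i = 1) : symb a = 0 := by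
  have := symb_update_one a i
  rwa [← h, update_eq_self] at this

theorem symb_update_inv (a : Fin n → Aˣ) (i : Fin n) (x : Aˣ) :
    symb (update a i x⁻¹) = - symb (update a i x) := by
  have h := symb_update_mul a i x⁻¹ x
  rw [inv_mul_cancel, symb_update_one] at h
  exact eq_neg_of_add_eq_zero_left h.symm

theorem symb_update_div (a : Fin n → Aˣ) (i : Fin n) (x y : Aˣ) :
    symb (update a i (x / y)) = symb (update a i x) - symb (update a i y) := by
  rw [div_eq_mul_inv, symb_update_mul, symb_update_inv, sub_eq_add_neg]

theorem symb_update_of_sq_eq_one (a : Fin n → Aˣ) (i : Fin n) (x : Aˣ) (hx : x * x = 1) :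
    symb (update a i x) = 0 := by
  have h := symb_update_mul a i x x
  rw [hx, symb_update_one] at h
  have h2 : (2 : ℚ) • symb (update a i x) = 0 := by rw [two_smul]; exact h.symm
  have h3 : (2 : ℚ) ≠ 0 := by norm_num
  have h4 := congrArg (fun z => (2 : ℚ)⁻¹ • z) h2
  simpa [smul_smul] using h4

theorem symb_update_neg (a : Fin n → Aˣ) (i : Fin n) (x : Aˣ) :
    symb (update a i (-x)) = symb (update a i x) := by
  have h : -x = (-1) * x := by simp
  rw [h, symb_update_mul, symb_update_of_sq_eq_one a i (-1) (by simp), zero_add]

/-- The general extension principle: to show that a symbol lies in a subspace, its entries may be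
replaced by the generators of subgroups which contain them. -/
theorem symb_mem_of_closure (W : Submodule ℚ (KQ A n)) (G : Fin n → Set Aˣ)
    (hW : ∀ b : Fin n → Aˣ, (∀ i, b i ∈ G i) → symb b ∈ W)
    (a : Fin n → Aˣ) (ha : ∀ i, a i ∈ Subgroup.closure (G i)) : symb a ∈ W := by
  classical
  have key : ∀ (s : Finset (Fin n)) (a : Fin n → Aˣ), (∀ i, i ∉ s → a i ∈ G i) →
      (∀ i, i ∈ s → a i ∈ Subgroup.closure (G i)) → symb a ∈ W := by
    intro s
    induction s using Finset.induction_on with
    | empty => intro a h1 _; exact hW a fun i => h1 i (Finset.notMem_empty i)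
    | insert j s hj ih =>
      intro a h1 h2
      have main : ∀ x ∈ Subgroup.closure (G j), symb (update a j x) ∈ W := by
        intro x hx
        induction hx using Subgroup.closure_induction with
        | mem x hx =>
          refine ih _ ?_ ?_
          · intro i hi
            by_cases hij : i = j
            · subst hij; rwa [update_self]
            · rw [update_of_ne hij]; exact h1 i (by simp [hij, hi])
          · intro i hi
            have hij : i ≠ j := fun e => hj (e ▸ hi)
            rw [update_of_ne hij]
            exact h2 i (Finset.mem_insert_of_mem hi)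
        | one => rw [symb_update_one]; exact W.zero_mem
        | mul x y _ _ hx hy => rw [symb_update_mul]; exact W.add_mem hx hy
        | inv x _ hx => rw [symb_update_inv]; exact W.neg_mem hx
      have := main (a j) (h2 j (Finset.mem_insert_self _ _))
      rwa [update_eq_self] at this
  exact key Finset.univ a (fun i hi => absurd (Finset.mem_univ i) hi) (fun i _ => ha i)

end Ring

section Field

variable {L : Type*} [Field L] {n : ℕ}

theorem symb_neg_self (a : Fin n → Lˣ) {i j : Fin n} (hij : i ≠ j) (h : a j = -a i) :
    symb a = 0 := by
  by_cases h1 : (a i : L) = 1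
  · have : a i = 1 := Units.ext h1
    exact symb_eq_zero_of_one a i this
  · have h2 : (1 : L) - a i ≠ 0 := sub_ne_zero.2 (Ne.symm h1)
    have hinv : ((a i)⁻¹ : Lˣ) ≠ 1 := by
      intro h; apply h1
      have : a i = 1 := by simpa using h
      rw [this]; rfl
    have h3 : (1 : L) - ((a i)⁻¹ : Lˣ) ≠ 0 := by
      rw [sub_ne_zero]
      intro h
      exact hinv (Units.ext h.symm)
    have e : a j = Units.mk0 _ h2 / Units.mk0 _ h3 := by
      rw [h]
      ext
      simp only [Units.val_neg, Units.val_div_eq_div_val, Units.val_mk0]
      rw [eq_div_iff h3, Units.val_inv_eq_inv_val]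
      field_simp
      ring
    have e2 : symb a = symb (update a j (Units.mk0 _ h2)) - symb (update a j (Units.mk0 _ h3)) := by
      rw [← symb_update_div, ← e, update_eq_self]
    have e3 : symb (update a j (Units.mk0 _ h2)) = 0 := by
      refine symb_eq_zero' _ hij ?_
      rw [update_of_ne hij, update_self, Units.val_mk0]; ring
    have e4 : symb (update a j (Units.mk0 _ h3)) = 0 := by
      have h5 := symb_update_inv (update a j (Units.mk0 _ h3)) i (a i)⁻¹
      rw [inv_inv] at h5
      have h6 : update (update a j (Units.mk0 _ h3)) i (a i) = update a j (Units.mk0 _ h3) := by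
        rw [update_eq_iff, update_of_ne hij]
        exact ⟨rfl, fun _ _ => rfl⟩
      rw [h6] at h5
      rw [h5, neg_eq_zero]
      refine symb_eq_zero' _ hij ?_
      rw [update_self, update_of_ne hij.symm, update_self, Units.val_mk0]
      ring
    rw [e2, e3, e4, sub_zero]

theorem symb_self (a : Fin n → Lˣ) {i j : Fin n} (hij : i ≠ j) (h : a i = a j) :
    symb a = 0 := by
  have h1 := symb_update_neg a j (a j)
  rw [update_eq_self] at h1
  rw [← h1]
  refine symb_neg_self _ hij ?_
  rw [update_self, update_of_ne hij, h]

/-- The symbols as an alternating map. -/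
noncomputable def symbAlt (L : Type*) [Field L] (n : ℕ) :
    (Additive Lˣ) [⋀^Fin n]→ₗ[ℤ] (KQ L n) where
  toFun a := symb fun i => (a i).toMul
  map_update_add' := by
    intro hd a i x y
    have e : ∀ z : Additive Lˣ, (fun j => (update a i z j).toMul) =
        update (fun j => (a j).toMul) i z.toMul := by
      intro z
      funext j
      by_cases hj : j = i
      · subst hj; simp
      · simp [update_of_ne hj]
    have hd' : hd = instDecidableEqFin n := Subsingleton.elim _ _
    subst hd'
    rw [e, e, e, toMul_add, symb_update_mul]
  map_update_smul' := by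
    intro hd a i c x
    have e : ∀ z : Additive Lˣ, (fun j => (update a i z j).toMul) =
        update (fun j => (a j).toMul) i z.toMul := by
      intro z
      funext j
      by_cases hj : j = i
      · subst hj; simp
      · simp [update_of_ne hj]
    have hd' : hd = instDecidableEqFin n := Subsingleton.elim _ _
    subst hd'
    rw [e, e, toMul_zsmul, symb_update_zpow, Int.cast_smul_eq_zsmul]
  map_eq_zero_of_eq' := by
    intro a i j h hij
    exact symb_self _ hij (by simp [h])

theorem symbAlt_apply (a : Fin n → Additive Lˣ) :
    symbAlt L n a = symb fun i => (a i).toMul := rfl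

theorem symb_eq_symbAlt (a : Fin n → Lˣ) : symb a = symbAlt L n fun i => Additive.ofMul (a i) := rfl

theorem symb_comp_swap (a : Fin n → Lˣ) {i j : Fin n} (hij : i ≠ j) :
    symb (a ∘ Equiv.swap i j) = - symb a := by
  rw [symb_eq_symbAlt, symb_eq_symbAlt, ← AlternatingMap.map_swap _ _ hij]
  rfl

theorem symb_update_update_swap (a : Fin n → Lˣ) {i j : Fin n} (hij : i ≠ j) (x y : Lˣ) :
    symb (update (update a i x) j y) = - symb (update (update a i y) j x) := by
  rw [← symb_comp_swap _ hij]
  congr 1
  funext l
  by_cases h1 : l = i
  · subst h1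
    simp [update_of_ne hij, Equiv.swap_apply_left]
  · by_cases h2 : l = j
    · subst h2
      simp [Equiv.swap_apply_right, update_of_ne hij]
    · simp [update_of_ne h1, update_of_ne h2, Equiv.swap_apply_of_ne_of_ne h1 h2]

end Field

end Pool.Agent.KS6_19
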