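import Pool.Agent.KS6_19.KQ.Res

/-!
The tame symbol, characterised by its values on the symbols of units and on the symbols
`{π, u_1, ..., u_r}`; existence and uniqueness.
-/

set_option autoImplicit false

namespace Pool.Agent.KS6_19

open Pool.Agent.TH826.MK Function FF

variable {k K : Type*} [Field k] [Field K] [Algebra k K]

/-- The residue field of the closed point `P`. -/
def ResFld (P : Place k K) : Type _ := IsLocalRing.ResidueField P.O

noncomputable instance (P : Place k K) : Field (ResFld P) :=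
  (IsLocalRing.ResidueField.field P.O : Field (IsLocalRing.ResidueField P.O))

/-- A unit of the valuation ring of `P` as a nonzero function. -/
def unitFun (P : Place k K) : P.Oˣ →* Kˣ := Units.map P.O.subtype.toMonoidHom

/-- The residue of a unit of the valuation ring of `P`. -/
noncomputable def unitRes (P : Place k K) : P.Oˣ →* (ResFld P)ˣ :=
  Units.map (IsLocalRing.residue P.O).toMonoidHom

/-- The linear maps `K_{r+1}^M(K) ⊗ ℚ → K_r^M(κ(P)) ⊗ ℚ`. -/
abbrev ResMap (P : Place k K) (r : ℕ) : Type _ := KQ K (r + 1) →ₗ[ℚ] KQ (ResFld P) r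

/-- `∂` is the tame symbol at `P`: it vanishes on the symbols of units of the valuation ring, and
`∂ {π, u_1, ..., u_r} = {ū_1, ..., ū_r}` if `π` has order one and the `u_i` are units of the
valuation ring with the residues `ū_i`. -/
def IsTameSymbol (P : Place k K) (r : ℕ) (τ : ResMap P r) : Prop :=
  (∀ u : Fin (r + 1) → P.Oˣ, τ (symb (unitFun P ∘ u)) = 0) ∧
  ∀ (π : Kˣ) (u : Fin r → P.Oˣ), P.ord (π : K) = 1 →
    τ (symb (Fin.cons π (unitFun P ∘ u) : Fin (r + 1) → Kˣ)) = symb (unitRes P ∘ u)

/-- The residue field of the library. -/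
noncomputable def toResFld (P : Place k K) : P.RF →+* ResFld P where
  toFun x := x
  map_one' := rfl
  map_mul' _ _ := rfl
  map_zero' := rfl
  map_add' _ _ := rfl

noncomputable def ofResFld (P : Place k K) : ResFld P →+* P.RF where
  toFun x := x
  map_one' := rfl
  map_mul' _ _ := rfl
  map_zero' := rfl
  map_add' _ _ := rfl

theorem KQ_ext' {A : Type*} [CommRing A] {n : ℕ} {V : Type*} [AddCommGroup V] [Module ℚ V]
    (f g : KQ A n →ₗ[ℚ] V) (h : ∀ a, f (symb a) = g (symb a)) : f = g := by
  apply Submodule.linearMap_qext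
  apply Finsupp.lhom_ext
  intro a q
  have h1 : (Finsupp.single a q : (Fin n → Aˣ) →₀ ℚ) = q • Finsupp.single a 1 := by
    rw [Finsupp.smul_single, smul_eq_mul, mul_one]
  rw [h1, map_smul, map_smul]
  congr 1
  exact h a

theorem map_to_of (P : Place k K) (r : ℕ) :
    (KQ.map r (toResFld P)) ∘ₗ (KQ.map r (ofResFld P)) = LinearMap.id := by
  apply KQ_ext'
  intro a
  rw [LinearMap.comp_apply, KQ.map_symb, KQ.map_symb]
  rfl

theorem unit_ord {P : Place k K} (u : P.Oˣ) :
    P.ord ((unitFun P u : Kˣ) : K) = 0 := by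
  have h := (P.isUnit_O_iff u.1.2).1 u.isUnit
  exact h.2

/-- The tame symbol. -/
noncomputable def tame (P : Place k K) (r : ℕ) : ResMap P r :=
  (KQ.map r (toResFld P)) ∘ₗ (res P r)

theorem tame_isTameSymbol (P : Place k K) (r : ℕ) : IsTameSymbol P r (tame P r) := by
  constructor
  · intro u
    unfold tame
    rw [LinearMap.comp_apply, res_symb_of_units P (unitFun P ∘ u) (fun i => unit_ord (u i)),
      map_zero]
  · intro π u hπ
    unfold tame
    rw [LinearMap.comp_apply, res_symb_cons P π (unitFun P ∘ u) (fun i => unit_ord (u i)), hπ,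
      one_smul, KQ.map_symb]
    congr 1
    funext i
    ext
    show ((bar P (unitFun P (u i)) : P.RFˣ) : P.RF) = (IsLocalRing.residue P.O (u i : P.O))
    rw [bar_of_ord_eq_zero P _ (unit_ord (u i))]
    exact P.red_of_reg (u i).1.2

theorem exists_unit {P : Place k K} (x : Kˣ) (h : P.ord (x : K) = 0) :
    ∃ u : P.Oˣ, unitFun P u = x := by
  have hx : P.Reg (x : K) := Or.inr h.ge
  have h1 : IsUnit (⟨x, hx⟩ : P.O) := (P.isUnit_O_iff hx).2 ⟨x.ne_zero, h⟩
  obtain ⟨u, hu⟩ := h1
  refine ⟨u, ?_⟩
  ext
  show ((u : P.O) : K) = x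
  rw [hu]

theorem IsTameSymbol.unique {P : Place k K} {r : ℕ} {τ τ' : ResMap P r}
    (h : IsTameSymbol P r τ) (h' : IsTameSymbol P r τ') : τ = τ' := by
  classical
  obtain ⟨t, ht0, ht⟩ := P.surj
  set π : Kˣ := Units.mk0 t ht0 with hπ
  let G : Set Kˣ := {x | P.ord (x : K) = 0} ∪ {π}
  have hG : ∀ x : Kˣ, x ∈ Subgroup.closure G := by
    intro x
    have e : x = (x / π ^ (P.ord (x : K))) * π ^ (P.ord (x : K)) := by rw [div_mul_cancel]
    have e1 : P.ord ((x / π ^ (P.ord (x : K)) : Kˣ) : K) = 0 := by
      rw [Units.val_div_eq_div_val, Units.val_zpow_eq_zpow_val,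
        P.ord_div x.ne_zero (zpow_ne_zero _ π.ne_zero), P.ord_zpow]
      rw [hπ, Units.val_mk0, ht]; ring
    have e2 : x / π ^ (P.ord (x : K)) ∈ Subgroup.closure G :=
      Subgroup.subset_closure (Or.inl e1)
    have e3 : π ∈ Subgroup.closure G := Subgroup.subset_closure (Or.inr rfl)
    rw [e]
    exact mul_mem e2 (zpow_mem e3 _)
  rw [← sub_eq_zero]
  apply KQ_ext'
  intro a
  have hmem : symb a ∈ LinearMap.ker (τ - τ') := by
    refine symb_mem_of_closure (LinearMap.ker (τ - τ')) (fun _ => G) ?_ a (fun i => hG _)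
    intro b hb
    rw [LinearMap.mem_ker, LinearMap.sub_apply, sub_eq_zero]
    -- a symbol of units and of `π`
    by_cases h0 : ∃ i, b i = π
    · obtain ⟨i, hi⟩ := h0
      by_cases h1 : ∃ j, j ≠ i ∧ b j = π
      · obtain ⟨j, hj, hj'⟩ := h1
        rw [symb_self b hj (by rw [hj', hi]), map_zero, map_zero]
      · push Not at h1
        have hsw : ∃ ε : ℚ, symb b = ε • symb (b ∘ Equiv.swap 0 i) := by
          by_cases h0 : (0 : Fin (r + 1)) = i
          · refine ⟨1, ?_⟩
            rw [← h0, Equiv.swap_self, one_smul]; rfl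
          · refine ⟨-1, ?_⟩
            rw [symb_comp_swap b h0]; simp
        obtain ⟨ε, hε⟩ := hsw
        have hu : ∀ l : Fin r, P.ord (((b ∘ Equiv.swap 0 i) l.succ : Kˣ) : K) = 0 := by
          intro l
          have h2 : Equiv.swap 0 i l.succ ≠ i := by
            intro h
            have h3 : l.succ = Equiv.swap 0 i i := Equiv.swap_apply_eq_iff.1 h
            rw [Equiv.swap_apply_right] at h3
            exact Fin.succ_ne_zero l h3
          exact (hb _).resolve_right (h1 _ h2)
        choose u hu' using fun l => exists_unit _ (hu l)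
        have e0 : b ∘ Equiv.swap 0 i = Fin.cons π (unitFun P ∘ u) := by
          funext l
          refine Fin.cases ?_ (fun l => ?_) l
          · rw [Fin.cons_zero, comp_apply, Equiv.swap_apply_left, hi]
          · rw [Fin.cons_succ]; exact (hu' l).symm
        have hπ1 : P.ord (π : K) = 1 := ht
        rw [hε, map_smul, map_smul, e0, h.2 π u hπ1, h'.2 π u hπ1]
    · push Not at h0
      choose u hu using fun i => exists_unit (b i) ((hb i).resolve_right (h0 i))
      have e0 : b = unitFun P ∘ u := by
        funext i; exact (hu i).symm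
      rw [e0, h.1, h'.1]
  exact hmem

theorem existsUnique_tame (P : Place k K) (r : ℕ) :
    ∃! τ : ResMap P r, IsTameSymbol P r τ :=
  ⟨tame P r, tame_isTameSymbol P r, fun _ h => h.unique (tame_isTameSymbol P r)⟩

end Pool.Agent.KS6_19
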